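import Pool.Agent.Run7.h514.MT.Cpl
import Pool.Agent.Run7.h475.MT.Log
import Pool.Agent.R401.Iso

/-!
# Semisimplicity: from the Lie algebra over the complex numbers to the Galois group
-/

set_option autoImplicit false
set_option linter.unusedSectionVars false

namespace Run7.h514.MT

open Matrix Module Filter Topology
open Run7.h457.MT

noncomputable section

section descent

variable {κ : Type} [Fintype κ] [DecidableEq κ]

/-- The descent of the projections from the field of complex numbers to a subfield. -/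
theorem descent {F : Type} [Field F] [Algebra ℚ F] (j : F →+* ℂ) (S : Set (Matrix κ κ ℚ))
    (h : ∀ N : Submodule ℂ (κ → ℂ), (∀ A ∈ S, ∀ x ∈ N, A.map (algebraMap ℚ ℂ) *ᵥ x ∈ N) →
      ∃ Q : Matrix κ κ ℂ, (∀ A ∈ S, Commute (A.map (algebraMap ℚ ℂ)) Q) ∧
      (∀ x, Q *ᵥ x ∈ N) ∧ ∀ x ∈ N, Q *ᵥ x = x)
    (M : Submodule F (κ → F)) (hM : ∀ A ∈ S, ∀ x ∈ M, A.map (algebraMap ℚ F) *ᵥ x ∈ M) :
    ∃ Q : Matrix κ κ F, (∀ A ∈ S, Commute (A.map (algebraMap ℚ F)) Q) ∧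
      (∀ x, Q *ᵥ x ∈ M) ∧ ∀ x ∈ M, Q *ᵥ x = x := by
  letI := j.toAlgebra
  obtain ⟨r, hr⟩ := LinearMap.exists_leftInverse_of_injective (Algebra.linearMap F ℂ)
    (LinearMap.ker_eq_bot.2 (algebraMap F ℂ).injective)
  have hrj : ∀ (x : F) (z : ℂ), r (j x * z) = x * r z := fun x z => by
    rw [show j x * z = x • z from rfl, map_smul, smul_eq_mul]
  have hrj' : ∀ (x : F) (z : ℂ), r (z * j x) = r z * x := fun x z => by
    rw [mul_comm, hrj, mul_comm]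
  have hr1 : ∀ x : F, r (j x) = x := fun x => LinearMap.congr_fun hr x
  have hjq : ∀ a : ℚ, j (algebraMap ℚ F a) = algebraMap ℚ ℂ a := fun a =>
    RingHom.congr_fun (Subsingleton.elim (j.comp (algebraMap ℚ F)) (algebraMap ℚ ℂ)) a
  let N : Submodule ℂ (κ → ℂ) := Submodule.span ℂ ((fun (x : κ → F) i => j (x i)) '' M)
  have hN1 : ∀ x ∈ M, (fun i => j (x i)) ∈ N := fun x hx => Submodule.subset_span ⟨x, hx, rfl⟩
  have hN2 : ∀ z ∈ N, ∀ c : ℂ, (fun i => r (c * z i)) ∈ M := by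
    intro z hz
    induction hz using Submodule.span_induction with
    | mem z hz =>
      obtain ⟨x, hx, rfl⟩ := hz
      intro c
      have h1 : (fun i => r (c * j (x i))) = r c • x := by
        funext i
        rw [hrj']
        rfl
      rw [h1]
      exact M.smul_mem _ hx
    | zero =>
      intro c
      have h1 : (fun i => r (c * (0 : κ → ℂ) i)) = 0 := by
        funext i
        rw [Pi.zero_apply, mul_zero, map_zero]
        rfl
      rw [h1]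
      exact M.zero_mem
    | add z z' _ _ h1 h2 =>
      intro c
      have h3 : (fun i => r (c * (z + z') i)) = (fun i => r (c * z i)) + fun i => r (c * z' i) := by
        funext i
        rw [Pi.add_apply, mul_add, map_add]
        rfl
      rw [h3]
      exact M.add_mem (h1 c) (h2 c)
    | smul a z _ h1 =>
      intro c
      have h3 : (fun i => r (c * (a • z) i)) = fun i => r ((c * a) * z i) := by
        funext i
        rw [Pi.smul_apply, smul_eq_mul, mul_assoc]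
      rw [h3]
      exact h1 (c * a)
  obtain ⟨Q, hQ1, hQ2, hQ3⟩ := h N (by
    intro A hA z hz
    induction hz using Submodule.span_induction with
    | mem z hz =>
      obtain ⟨x, hx, rfl⟩ := hz
      have h1 := hN1 _ (hM A hA x hx)
      convert h1 using 1
      funext i
      simp only [Matrix.mulVec, dotProduct, Matrix.map_apply, map_sum, map_mul, hjq]
    | zero => rw [Matrix.mulVec_zero]; exact N.zero_mem
    | add z z' _ _ h1 h2 => rw [Matrix.mulVec_add]; exact N.add_mem h1 h2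
    | smul a z _ h1 => rw [Matrix.mulVec_smul]; exact N.smul_mem a h1)
  refine ⟨Q.map r, fun A hA => ?_, fun x => ?_, fun x hx => ?_⟩
  · have h1 := (hQ1 A hA).eq
    change _ = _
    ext i k
    have h2 := congrArg r (congrFun (congrFun h1 i) k)
    simp only [Matrix.mul_apply, Matrix.map_apply, map_sum, ← hjq, hrj, hrj'] at h2 ⊢
    exact h2
  · have h1 := hN2 _ (hQ2 fun i => j (x i)) 1
    convert h1 using 1
    funext i
    simp only [Matrix.mulVec, dotProduct, Matrix.map_apply, map_sum, one_mul, hrj']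
  · have h1 := hQ3 _ (hN1 x hx)
    funext i
    have h2 := congrArg r (congrFun h1 i)
    simp only [Matrix.mulVec, dotProduct, Matrix.map_apply, map_sum, hrj', hr1] at h2 ⊢
    exact h2

end descent

section galois

variable {κ : Type} [Fintype κ] [DecidableEq κ] {ℓ : ℕ} [Fact ℓ.Prime]

/-- A stable subspace is stable under the logarithm. -/
theorem log_mem {g L : Matrix κ κ ℚ_[ℓ]} (hL : IsLog g L) {M : Submodule ℚ_[ℓ] (κ → ℚ_[ℓ])}
    (hM : ∀ x ∈ M, g *ᵥ x ∈ M) : ∀ x ∈ M, L *ᵥ x ∈ M := by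
  intro x hx
  have h1 : Tendsto (fun n : ℕ => (((ℓ : ℚ_[ℓ]) ^ n)⁻¹ • (g ^ ℓ ^ n - 1)) *ᵥ x) atTop
      (𝓝 (L *ᵥ x)) := by
    have hc : Continuous fun A : Matrix κ κ ℚ_[ℓ] => A *ᵥ x :=
      continuous_id.matrix_mulVec continuous_const
    exact (hc.tendsto L).comp hL
  refine (Submodule.closed_of_finiteDimensional M).mem_of_tendsto h1
    (Filter.Eventually.of_forall fun n => ?_)
  rw [Matrix.smul_mulVec, Matrix.sub_mulVec, Matrix.one_mulVec]
  exact M.smul_mem _ (M.sub_mem (pow_stable hM _ x hx) hx)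

/-- A projection which commutes with the logarithm of `g` commutes with `g`, for `g` near `1`. -/
theorem comm_of_log {g L Q : Matrix κ κ ℚ_[ℓ]} (hg : NearOne 2 g) (hL : IsLog g L)
    (hQ : Commute L Q) (hid : ∀ x, Q *ᵥ Q *ᵥ x = Q *ᵥ x) : Commute g Q := by
  have h1 : ∀ x, Q *ᵥ g *ᵥ Q *ᵥ x = g *ᵥ Q *ᵥ x := by
    let A : Submodule ℚ_[ℓ] (κ → ℚ_[ℓ]) :=
      { carrier := {y | Q *ᵥ y = y}
        add_mem' := fun ha hb => by
          change Q *ᵥ (_ + _) = _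
          rw [Matrix.mulVec_add, ha, hb]
        zero_mem' := Matrix.mulVec_zero _
        smul_mem' := fun c x hx => by
          change Q *ᵥ (c • x) = c • x
          rw [Matrix.mulVec_smul, hx] }
    have h2 := Run7.h475.MT.t_LOGSTAB ℓ κ g L hg hL A (fun x hx => by
      change Q *ᵥ (L *ᵥ x) = L *ᵥ x
      rw [Matrix.mulVec_mulVec, ← hQ.eq, ← Matrix.mulVec_mulVec, show Q *ᵥ x = x from hx])
    exact fun x => h2 _ (hid x)
  have h3 : ∀ x, Q *ᵥ x = 0 → Q *ᵥ g *ᵥ x = 0 := by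
    let A : Submodule ℚ_[ℓ] (κ → ℚ_[ℓ]) :=
      { carrier := {y | Q *ᵥ y = 0}
        add_mem' := fun ha hb => by
          change Q *ᵥ (_ + _) = _
          rw [Matrix.mulVec_add, ha, hb, add_zero]
        zero_mem' := Matrix.mulVec_zero _
        smul_mem' := fun c x hx => by
          change Q *ᵥ (c • x) = 0
          rw [Matrix.mulVec_smul, hx, smul_zero] }
    exact Run7.h475.MT.t_LOGSTAB ℓ κ g L hg hL A (fun x hx => by
      change Q *ᵥ (L *ᵥ x) = 0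
      rw [Matrix.mulVec_mulVec, ← hQ.eq, ← Matrix.mulVec_mulVec, show Q *ᵥ x = 0 from hx,
        Matrix.mulVec_zero])
  refine Matrix.toLin'.injective (LinearMap.ext fun x => ?_)
  rw [Matrix.toLin'_apply, Matrix.toLin'_apply, ← Matrix.mulVec_mulVec, ← Matrix.mulVec_mulVec]
  have h4 : x = Q *ᵥ x + (x - Q *ᵥ x) := by abel
  have h5 : Q *ᵥ g *ᵥ (x - Q *ᵥ x) = 0 := h3 _ (by rw [Matrix.mulVec_sub, hid, sub_self])
  conv_rhs => rw [h4, Matrix.mulVec_add, Matrix.mulVec_add, h1, h5, add_zero]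

variable {Γ : Type} [Group Γ]

/-- The average of an operator over a subgroup of finite index. -/
theorem average (ρ : Γ →* Matrix κ κ ℚ_[ℓ]) (Δ : Subgroup Γ) [Δ.FiniteIndex]
    {Q : Matrix κ κ ℚ_[ℓ]} (hQ : ∀ σ ∈ Δ, Commute (ρ σ) Q) {M : Submodule ℚ_[ℓ] (κ → ℚ_[ℓ])}
    (hM : ∀ σ, ∀ x ∈ M, ρ σ *ᵥ x ∈ M) (hQM : ∀ x, Q *ᵥ x ∈ M) (hQx : ∀ x ∈ M, Q *ᵥ x = x) :
    ∃ R : Matrix κ κ ℚ_[ℓ], (∀ σ, Commute (ρ σ) R) ∧ (∀ x, R *ᵥ x ∈ M) ∧ ∀ x ∈ M, R *ᵥ x = x := by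
  classical
  have : Finite (Γ ⧸ Δ) := inferInstance
  let _ : Fintype (Γ ⧸ Δ) := Fintype.ofFinite _
  let f : Γ → Matrix κ κ ℚ_[ℓ] := fun τ => ρ τ * Q * ρ τ⁻¹
  have hf : ∀ τ δ, δ ∈ Δ → f (τ * δ) = f τ := by
    intro τ δ hδ
    change ρ (τ * δ) * Q * ρ (τ * δ)⁻¹ = ρ τ * Q * ρ τ⁻¹
    rw [_root_.mul_inv_rev, map_mul, map_mul]
    have h1 : ρ δ * Q * ρ δ⁻¹ = Q := by
      rw [(hQ δ hδ).eq, mul_assoc, ← map_mul, mul_inv_cancel, map_one, mul_one]
    calc ρ τ * ρ δ * Q * (ρ δ⁻¹ * ρ τ⁻¹) = ρ τ * (ρ δ * Q * ρ δ⁻¹) * ρ τ⁻¹ := by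
          simp only [mul_assoc]
      _ = _ := by rw [h1]
  let g : Γ ⧸ Δ → Matrix κ κ ℚ_[ℓ] := fun q => f q.out
  have hg : ∀ τ : Γ, g (QuotientGroup.mk τ) = f τ := by
    intro τ
    obtain ⟨δ, hδ⟩ := QuotientGroup.mk_out_eq_mul Δ τ
    change f (QuotientGroup.mk τ : Γ ⧸ Δ).out = f τ
    rw [hδ]
    exact hf τ δ δ.2
  have hcard : ((Fintype.card (Γ ⧸ Δ) : ℕ) : ℚ_[ℓ]) ≠ 0 :=
    Nat.cast_ne_zero.2 Fintype.card_ne_zero
  refine ⟨(Fintype.card (Γ ⧸ Δ) : ℚ_[ℓ])⁻¹ • ∑ q, g q, fun σ => ?_, fun x => ?_, fun x hx => ?_⟩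
  · refine Commute.smul_right ?_ _
    have h1 : ∀ q : Γ ⧸ Δ, ρ σ * g q = g (σ • q) * ρ σ := by
      intro q
      obtain ⟨τ, rfl⟩ := QuotientGroup.mk_surjective q
      rw [show σ • (QuotientGroup.mk τ : Γ ⧸ Δ) = QuotientGroup.mk (σ * τ) from rfl, hg, hg]
      change ρ σ * (ρ τ * Q * ρ τ⁻¹) = ρ (σ * τ) * Q * ρ (σ * τ)⁻¹ * ρ σ
      rw [_root_.mul_inv_rev, map_mul, map_mul]
      have h2 : ρ σ⁻¹ * ρ σ = 1 := by rw [← map_mul, inv_mul_cancel, map_one]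
      simp only [mul_assoc]
      rw [h2, mul_one]
    change _ * _ = _ * _
    rw [Finset.mul_sum, Finset.sum_mul, Finset.sum_congr rfl fun q _ => h1 q]
    exact Equiv.sum_comp (MulAction.toPerm σ) fun q => g q * ρ σ
  · rw [Matrix.smul_mulVec, Matrix.sum_mulVec]
    refine M.smul_mem _ (M.sum_mem fun q _ => ?_)
    change (ρ q.out * Q * ρ q.out⁻¹) *ᵥ x ∈ M
    rw [← Matrix.mulVec_mulVec, ← Matrix.mulVec_mulVec]
    exact hM _ _ (hQM _)
  · rw [Matrix.smul_mulVec, Matrix.sum_mulVec]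
    have h1 : ∀ q : Γ ⧸ Δ, g q *ᵥ x = x := by
      intro q
      change (ρ q.out * Q * ρ q.out⁻¹) *ᵥ x = x
      rw [← Matrix.mulVec_mulVec, ← Matrix.mulVec_mulVec, hQx _ (hM _ x hx),
        Matrix.mulVec_mulVec, ← map_mul, mul_inv_cancel, map_one, Matrix.one_mulVec]
    rw [Finset.sum_congr rfl fun q _ => h1 q, Finset.sum_const, Finset.card_univ,
      ← Nat.cast_smul_eq_nsmul ℚ_[ℓ], smul_smul, inv_mul_cancel₀ hcard, one_smul]

/-- **From the Lie algebra to the group.** -/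
theorem semisimple_of_lie (ρ : Γ →* Matrix κ κ ℚ_[ℓ]) (Δ : Subgroup Γ) [Δ.FiniteIndex]
    (hΔ : ∀ σ ∈ Δ, NearOne 2 (ρ σ)) {S : Set (Matrix κ κ ℚ)}
    (hS : galLie (fun σ => ρ σ) = ratSpan ℚ_[ℓ] S)
    (h : ∀ N : Submodule ℂ (κ → ℂ), (∀ A ∈ S, ∀ x ∈ N, A.map (algebraMap ℚ ℂ) *ᵥ x ∈ N) →
      ∃ Q : Matrix κ κ ℂ, (∀ A ∈ S, Commute (A.map (algebraMap ℚ ℂ)) Q) ∧
      (∀ x, Q *ᵥ x ∈ N) ∧ ∀ x ∈ N, Q *ᵥ x = x)
    {M : Submodule ℚ_[ℓ] (κ → ℚ_[ℓ])} (hM : ∀ σ, ∀ x ∈ M, ρ σ *ᵥ x ∈ M) :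
    ∃ M' : Submodule ℚ_[ℓ] (κ → ℚ_[ℓ]), (∀ σ, ∀ x ∈ M', ρ σ *ᵥ x ∈ M') ∧ IsCompl M M' := by
  obtain ⟨ι⟩ := Pool.Agent.R401.Iso.exists_iso ℓ
  let j : ℚ_[ℓ] →+* ℂ := (ι : PadicAlgCl ℓ →+* ℂ).comp (algebraMap ℚ_[ℓ] (PadicAlgCl ℓ))
  have hlie : ∀ L ∈ galLie (fun σ => ρ σ), ∀ x ∈ M, L *ᵥ x ∈ M := by
    intro L hL
    induction hL using Submodule.span_induction with
    | mem L hL =>
      obtain ⟨σ, hσ⟩ := hL
      exact log_mem hσ (hM σ)
    | zero => intro x _; rw [Matrix.zero_mulVec]; exact M.zero_mem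
    | add A B _ _ hA hB => intro x hx; rw [Matrix.add_mulVec]; exact M.add_mem (hA x hx) (hB x hx)
    | smul c A _ hA => intro x hx; rw [Matrix.smul_mulVec]; exact M.smul_mem c (hA x hx)
  obtain ⟨Q, hQ1, hQ2, hQ3⟩ := descent j S h M (by
    intro A hA
    refine hlie _ ?_
    rw [hS]
    exact Submodule.subset_span ⟨A, hA, rfl⟩)
  have hQlie : ∀ L ∈ galLie (fun σ => ρ σ), Commute L Q := by
    rw [hS]
    intro L hL
    induction hL using Submodule.span_induction with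
    | mem L hL =>
      obtain ⟨A, hA, rfl⟩ := hL
      exact hQ1 A hA
    | zero => exact Commute.zero_left _
    | add A B _ _ hA hB => exact hA.add_left hB
    | smul c A _ hA => exact hA.smul_left c
  have hid : ∀ x, Q *ᵥ Q *ᵥ x = Q *ᵥ x := fun x => hQ3 _ (hQ2 x)
  obtain ⟨R, hR1, hR2, hR3⟩ := average ρ Δ (Q := Q) (fun σ hσ => by
    obtain ⟨L, hL⟩ := Run7.h475.MT.t_LOGEX ℓ κ (ρ σ) (hΔ σ hσ)
    exact comm_of_log (hΔ σ hσ) hL (hQlie L (Submodule.subset_span ⟨σ, hL⟩)) hid) hM hQ2 hQ3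
  refine ⟨LinearMap.ker (Matrix.toLin' R), fun σ x hx => ?_, ?_⟩
  · rw [LinearMap.mem_ker, Matrix.toLin'_apply] at hx ⊢
    rw [Matrix.mulVec_mulVec, ← (hR1 σ).eq, ← Matrix.mulVec_mulVec, hx, Matrix.mulVec_zero]
  · refine ⟨?_, ?_⟩
    · rw [Submodule.disjoint_def]
      intro x hx hx'
      rw [LinearMap.mem_ker, Matrix.toLin'_apply, hR3 x hx] at hx'
      exact hx'
    · rw [codisjoint_iff, Submodule.eq_top_iff']
      intro x
      refine Submodule.mem_sup.2 ⟨R *ᵥ x, hR2 x, x - R *ᵥ x, ?_, by abel⟩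
      rw [LinearMap.mem_ker, Matrix.toLin'_apply, Matrix.mulVec_sub, hR3 _ (hR2 x), sub_self]

end galois

end

end Run7.h514.MT
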