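import Pool.Agent.Run7.h475.MT.Rat

/-!
# Complements of subspaces which are stable under the Lie algebra of a Mumford-Tate group

Over the project MT457 of helper457.
-/

set_option autoImplicit false
set_option linter.unusedSectionVars false

namespace Run7.h514.MT

open Matrix Module Polynomial
open Run7.h457.MT
open scoped ComplexOrder

noncomputable section

section general

variable {κ F : Type} [Fintype κ] [DecidableEq κ] [Field F]

theorem pow_stable {X : Matrix κ κ F} {N : Submodule F (κ → F)} (h : ∀ x ∈ N, X *ᵥ x ∈ N)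
    (n : ℕ) : ∀ x ∈ N, (X ^ n) *ᵥ x ∈ N := by
  induction n with
  | zero => intro x hx; rw [pow_zero, Matrix.one_mulVec]; exact hx
  | succ n ih =>
    intro x hx
    rw [pow_succ, ← Matrix.mulVec_mulVec]
    exact ih _ (h x hx)

theorem aeval_stable {X : Matrix κ κ F} {N : Submodule F (κ → F)} (h : ∀ x ∈ N, X *ᵥ x ∈ N)
    (p : F[X]) : ∀ x ∈ N, (aeval X p) *ᵥ x ∈ N := by
  intro x hx
  rw [aeval_eq_sum_range, Matrix.sum_mulVec]
  refine N.sum_mem fun n _ => ?_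
  rw [Matrix.smul_mulVec]
  exact N.smul_mem _ (pow_stable h n x hx)

variable {P : Type} [Fintype P] [DecidableEq P] {e : P → Matrix κ κ F}

theorem idem_mul (he : ∀ c c', e c * e c' = if c = c' then e c else 0) (m m' : P → F) :
    (∑ c, m c • e c) * (∑ c, m' c • e c) = ∑ c, (m c * m' c) • e c := by
  rw [Finset.sum_mul]
  refine Finset.sum_congr rfl fun c _ => ?_
  rw [Finset.mul_sum, Finset.sum_eq_single c]
  · rw [smul_mul_smul_comm, he, if_pos rfl]
  · intro c' _ hc'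
    rw [smul_mul_smul_comm, he, if_neg hc'.symm, smul_zero]
  · intro h
    exact absurd (Finset.mem_univ c) h

theorem aeval_idem (he : ∀ c c', e c * e c' = if c = c' then e c else 0) (h1 : ∑ c, e c = 1)
    (m : P → F) (p : F[X]) : aeval (∑ c, m c • e c) p = ∑ c, p.eval (m c) • e c := by
  have hpow : ∀ n : ℕ, (∑ c, m c • e c) ^ n = ∑ c, (m c) ^ n • e c := by
    intro n
    induction n with
    | zero => simp only [pow_zero, one_smul, h1]
    | succ n ih =>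
      rw [_root_.pow_succ, ih, idem_mul he]
      exact Finset.sum_congr rfl fun c _ => by rw [← _root_.pow_succ]
  rw [aeval_eq_sum_range]
  simp only [hpow, Finset.smul_sum]
  rw [Finset.sum_comm]
  refine Finset.sum_congr rfl fun c _ => ?_
  rw [eval_eq_sum_range, Finset.sum_smul]
  exact Finset.sum_congr rfl fun n _ => by rw [smul_smul]

/-- A polynomial with given values at integers. -/
theorem exists_interp [CharZero F] (m : P → ℤ) (f : ℤ → F) :
    ∃ p : F[X], ∀ c, p.eval (m c : F) = f (m c) := by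
  refine ⟨Lagrange.interpolate (Finset.univ.image m) (fun k : ℤ => (k : F)) f, fun c => ?_⟩
  exact Lagrange.eval_interpolate_at_node (s := Finset.univ.image m) (v := fun k : ℤ => (k : F)) f
    (fun a _ b _ h => Int.cast_injective h) (Finset.mem_image_of_mem _ (Finset.mem_univ c))

/-- The projection given by two complementary subspaces. -/
theorem proj_of_compl {N N' : Submodule F (κ → F)} (h : IsCompl N N') :
    ∃ Q : Matrix κ κ F, (∀ x, Q *ᵥ x ∈ N) ∧ (∀ x ∈ N, Q *ᵥ x = x) ∧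
      ∀ A : Matrix κ κ F, (∀ x ∈ N, A *ᵥ x ∈ N) → (∀ x ∈ N', A *ᵥ x ∈ N') → Commute A Q := by
  let f : (κ → F) →ₗ[F] (κ → F) := N.subtype ∘ₗ N.projectionOnto N' h
  have hf : ∀ x, LinearMap.toMatrix' f *ᵥ x = f x := fun x => LinearMap.toMatrix'_mulVec f x
  have hN : ∀ x ∈ N, f x = x := fun x hx =>
    congrArg Subtype.val (Submodule.projectionOnto_apply_left h ⟨x, hx⟩)
  have hN' : ∀ x ∈ N', f x = 0 := fun x hx =>
    congrArg Subtype.val (Submodule.projectionOnto_apply_right h ⟨x, hx⟩)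
  refine ⟨LinearMap.toMatrix' f, fun x => ?_, fun x hx => ?_, fun A hA hA' => ?_⟩
  · rw [hf]
    exact (N.projectionOnto N' h x).2
  · rw [hf, hN x hx]
  · refine Matrix.toLin'.injective (LinearMap.ext fun x => ?_)
    rw [Matrix.toLin'_apply, Matrix.toLin'_apply, ← Matrix.mulVec_mulVec, ← Matrix.mulVec_mulVec,
      hf, hf]
    obtain ⟨y, hy, z, hz, rfl⟩ : ∃ y ∈ N, ∃ z ∈ N', y + z = x :=
      Submodule.mem_sup.1 (h.sup_eq_top ▸ Submodule.mem_top)
    rw [map_add, hN y hy, hN' z hz, add_zero, Matrix.mulVec_add, map_add, hN _ (hA y hy),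
      hN' _ (hA' z hz), add_zero]

end general

section herm

variable {κ : Type} [Fintype κ] [DecidableEq κ]

theorem star_mulVec_map (A : Matrix κ κ ℂ) (x : κ → ℂ) :
    star (A *ᵥ x) = A.map (starRingEnd ℂ) *ᵥ star x := by
  funext i
  simp only [Matrix.mulVec, dotProduct, Pi.star_apply, star_sum, star_mul', Matrix.map_apply]
  rfl

/-- The left orthogonal of the conjugate of `N`. -/
def orth (ψ : Matrix κ κ ℂ) (N : Submodule ℂ (κ → ℂ)) : Submodule ℂ (κ → ℂ) where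
  carrier := {x | ∀ y ∈ N, x ⬝ᵥ ψ *ᵥ star y = 0}
  add_mem' ha hb y hy := by rw [add_dotProduct, ha y hy, hb y hy, add_zero]
  zero_mem' y _ := zero_dotProduct _
  smul_mem' c x hx y hy := by rw [smul_dotProduct, hx y hy, smul_zero]

theorem mem_orth {ψ : Matrix κ κ ℂ} {N : Submodule ℂ (κ → ℂ)} {x : κ → ℂ} :
    x ∈ orth ψ N ↔ ∀ y ∈ N, x ⬝ᵥ ψ *ᵥ star y = 0 := Iff.rfl

theorem finrank_orth (ψ : Matrix κ κ ℂ) (N : Submodule ℂ (κ → ℂ)) :
    Module.finrank ℂ (κ → ℂ) ≤ Module.finrank ℂ N + Module.finrank ℂ (orth ψ N) := by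
  let b := Module.finBasis ℂ N
  let T : (κ → ℂ) →ₗ[ℂ] (Fin (Module.finrank ℂ N) → ℂ) :=
    { toFun := fun x j => x ⬝ᵥ ψ *ᵥ star (b j : κ → ℂ)
      map_add' := fun x y => by funext j; exact add_dotProduct _ _ _
      map_smul' := fun c x => by funext j; exact smul_dotProduct _ _ _ }
  have h1 : LinearMap.ker T ≤ orth ψ N := by
    intro x hx
    rw [LinearMap.mem_ker] at hx
    rw [mem_orth]
    intro y hy
    have h2 : y = ∑ j, b.repr ⟨y, hy⟩ j • (b j : κ → ℂ) := by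
      have h3 := congrArg N.subtype (b.sum_repr ⟨y, hy⟩)
      rw [map_sum] at h3
      exact h3.symm
    have h4 : star y = ∑ j, star (b.repr ⟨y, hy⟩ j) • star (b j : κ → ℂ) := by
      conv_lhs => rw [h2]
      rw [star_sum]
      exact Finset.sum_congr rfl fun j _ => star_smul _ _
    rw [h4, Matrix.mulVec_sum, dotProduct_sum]
    refine Finset.sum_eq_zero fun j _ => ?_
    rw [Matrix.mulVec_smul, dotProduct_smul]
    have h5 : x ⬝ᵥ ψ *ᵥ star (b j : κ → ℂ) = 0 := congrFun hx j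
    rw [h5, smul_zero]
  have h2 := T.finrank_range_add_finrank_ker
  have h3 : Module.finrank ℂ (LinearMap.range T) ≤ Module.finrank ℂ N := by
    refine (Submodule.finrank_le _).trans ?_
    rw [Module.finrank_fintype_fun_eq_card, Fintype.card_fin]
  have h4 : Module.finrank ℂ (LinearMap.ker T) ≤ Module.finrank ℂ (orth ψ N) :=
    Submodule.finrank_mono h1
  omega

/-- The orthogonal is a complement. -/
theorem isCompl_orth {ψ X : Matrix κ κ ℂ} (hX : X.map (starRingEnd ℂ) = X)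
    (hpos : (ψ * X).PosDef) {N : Submodule ℂ (κ → ℂ)} (hN : ∀ x ∈ N, X *ᵥ x ∈ N) :
    IsCompl N (orth ψ N) := by
  have hd : Disjoint N (orth ψ N) := by
    rw [Submodule.disjoint_def]
    intro x hx hx'
    have h1 := mem_orth.1 hx' _ (hN x hx)
    rw [star_mulVec_map, hX, Matrix.mulVec_mulVec] at h1
    by_contra hne
    have h2 : star x ≠ 0 := fun h => hne (star_eq_zero.1 h)
    have h3 := hpos.dotProduct_mulVec_pos h2
    rw [star_star, h1] at h3
    exact lt_irrefl _ h3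
  exact ⟨hd, codisjoint_iff.2 (Submodule.eq_top_of_disjoint N _ (finrank_orth ψ N) hd)⟩

end herm

section mt

variable {κ : Type} [Fintype κ] [DecidableEq κ] {D D' : Matrix κ κ ℂ}

/-- The Lie algebra of the similitudes of the form `ψ`. -/
def gspMat (ψ : Matrix κ κ ℚ) : Submodule ℚ (Matrix κ κ ℚ) where
  carrier := {A | ∃ c : ℚ, Aᵀ * ψ + ψ * A = c • ψ}
  add_mem' := by
    rintro A A' ⟨c, hc⟩ ⟨c', hc'⟩
    refine ⟨c + c', ?_⟩
    rw [Matrix.transpose_add, add_mul, mul_add, add_smul, ← hc, ← hc']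
    abel
  zero_mem' := ⟨0, by rw [Matrix.transpose_zero, zero_mul, mul_zero, add_zero, zero_smul]⟩
  smul_mem' := by
    rintro r A ⟨c, hc⟩
    refine ⟨r * c, ?_⟩
    rw [Matrix.transpose_smul, smul_mul_assoc, mul_smul_comm, ← smul_add, hc, smul_smul]

theorem gspMat_lie (ψ : Matrix κ κ ℚ) : IsLie (gspMat ψ) := by
  rintro A ⟨c, hc⟩ B ⟨c', hc'⟩
  refine ⟨0, ?_⟩
  have h1 : Aᵀ * ψ = c • ψ - ψ * A := eq_sub_of_add_eq hc
  have h2 : Bᵀ * ψ = c' • ψ - ψ * B := eq_sub_of_add_eq hc'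
  have h3 : (A * B - B * A)ᵀ * ψ = Bᵀ * (Aᵀ * ψ) - Aᵀ * (Bᵀ * ψ) := by
    rw [Matrix.transpose_sub, Matrix.transpose_mul, Matrix.transpose_mul, sub_mul, mul_assoc,
      mul_assoc]
  rw [h3, h1, h2, mul_sub, mul_sub, mul_smul_comm, mul_smul_comm, ← mul_assoc, ← mul_assoc, h1, h2,
    sub_mul, sub_mul, smul_mul_assoc, smul_mul_assoc, mul_sub, smul_sub, smul_sub, zero_smul,
    mul_assoc, mul_assoc, smul_comm c c']
  abel

/-- The Hodge operators are similitudes. -/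
theorem mem_gsp {ψ : Matrix κ κ ℚ} {w : ℚ} {X : Matrix κ κ ℂ}
    (h : Xᵀ * ψ.map (algebraMap ℚ ℂ) + ψ.map (algebraMap ℚ ℂ) * X =
      (w : ℂ) • ψ.map (algebraMap ℚ ℂ)) :
    X ∈ ratSpan ℂ (gspMat ψ : Set (Matrix κ κ ℚ)) := by
  rw [Run7.h475.MT.t_SPAN]
  intro φ
  refine ⟨w * φ 1, ?_⟩
  ext i j
  have h1 := congrArg φ (congrFun (congrFun h i) j)
  have h6 : ∀ (x : ℚ) (y : ℂ), φ (algebraMap ℚ ℂ x * y) = x * φ y := fun x y => by
    rw [← Algebra.smul_def, map_smul, smul_eq_mul]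
  have h7 : ∀ (x : ℚ) (y : ℂ), φ (y * algebraMap ℚ ℂ x) = φ y * x := fun x y => by
    rw [mul_comm, h6, mul_comm]
  have h8 : φ ((w : ℚ) : ℂ) = w * φ 1 := by
    have h9 := h6 w 1
    rwa [mul_one, eq_ratCast] at h9
  simp only [Matrix.add_apply, Matrix.mul_apply, Matrix.transpose_apply, Matrix.map_apply,
    Matrix.smul_apply, smul_eq_mul, map_add, map_sum, h6, h7, h8] at h1 ⊢
  exact h1

/-- **The complement.** -/
theorem compl_cpx {P : Type} [Fintype P] [DecidableEq P] {a b : P → ℤ} {e : P → Matrix κ κ ℂ}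
    (he : ∀ c c', e c * e c' = if c = c' then e c else 0) (h1 : ∑ c, e c = 1)
    (hD : D = ∑ c, (a c : ℂ) • e c) (hD' : D' = ∑ c, (b c : ℂ) • e c) {ψ : Matrix κ κ ℚ} {w w' : ℚ}
    (hψ : Dᵀ * ψ.map (algebraMap ℚ ℂ) + ψ.map (algebraMap ℚ ℂ) * D =
      (w : ℂ) • ψ.map (algebraMap ℚ ℂ))
    (hψ' : D'ᵀ * ψ.map (algebraMap ℚ ℂ) + ψ.map (algebraMap ℚ ℂ) * D' =
      (w' : ℂ) • ψ.map (algebraMap ℚ ℂ))
    {X : Matrix κ κ ℂ} (f : ℤ → ℂ) (hX : X = ∑ c, f (b c - a c) • e c)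
    (hreal : X.map (starRingEnd ℂ) = X) (hpos : (ψ.map (algebraMap ℚ ℂ) * X).PosDef)
    (N : Submodule ℂ (κ → ℂ))
    (hN : ∀ A ∈ mtLie D D', ∀ x ∈ N, A.map (algebraMap ℚ ℂ) *ᵥ x ∈ N) :
    ∃ Q : Matrix κ κ ℂ, (∀ A ∈ mtLie D D', Commute (A.map (algebraMap ℚ ℂ)) Q) ∧
      (∀ x, Q *ᵥ x ∈ N) ∧ ∀ x ∈ N, Q *ᵥ x = x := by
  -- `N` is stable under `D` and `D'`
  have hspan : ∀ A ∈ ratSpan ℂ (mtLie D D' : Set (Matrix κ κ ℚ)), ∀ x ∈ N, A *ᵥ x ∈ N := by
    intro A hA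
    induction hA using Submodule.span_induction with
    | mem A hA =>
      obtain ⟨A, hA, rfl⟩ := hA
      exact hN A hA
    | zero => intro x _; rw [Matrix.zero_mulVec]; exact N.zero_mem
    | add A B _ _ hA hB => intro x hx; rw [Matrix.add_mulVec]; exact N.add_mem (hA x hx) (hB x hx)
    | smul c A _ hA => intro x hx; rw [Matrix.smul_mulVec]; exact N.smul_mem c (hA x hx)
  have hmem : D ∈ ratSpan ℂ (mtLie D D' : Set (Matrix κ κ ℚ)) ∧
      D' ∈ ratSpan ℂ (mtLie D D' : Set (Matrix κ κ ℚ)) := by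
    rw [Run7.h475.MT.t_SPAN, Run7.h475.MT.t_SPAN]
    constructor
    · intro φ
      refine (Submodule.mem_sInf).2 fun S hS => ?_
      exact (Run7.h475.MT.t_SPAN ℂ κ S D).1 hS.2.1 φ
    · intro φ
      refine (Submodule.mem_sInf).2 fun S hS => ?_
      exact (Run7.h475.MT.t_SPAN ℂ κ S D').1 hS.2.2 φ
  obtain ⟨p, hp⟩ := exists_interp (F := ℂ) (fun c => b c - a c) f
  have hXp : X = aeval (D' - D) p := by
    have h2 : D' - D = ∑ c, ((b c - a c : ℤ) : ℂ) • e c := by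
      rw [hD, hD', ← Finset.sum_sub_distrib]
      refine Finset.sum_congr rfl fun c _ => ?_
      rw [← sub_smul, Int.cast_sub]
    rw [h2, aeval_idem he h1, hX]
    exact Finset.sum_congr rfl fun c _ => by rw [hp c]
  have hXN : ∀ x ∈ N, X *ᵥ x ∈ N := by
    rw [hXp]
    refine aeval_stable (fun x hx => ?_) p
    rw [Matrix.sub_mulVec]
    exact N.sub_mem (hspan _ hmem.2 x hx) (hspan _ hmem.1 x hx)
  have hc := isCompl_orth hreal hpos hXN
  obtain ⟨Q, hQ1, hQ2, hQ3⟩ := proj_of_compl hc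
  refine ⟨Q, fun A hA => hQ3 _ (hN A hA) fun x hx => ?_, hQ1, hQ2⟩
  have hgsp : A ∈ gspMat ψ :=
    (Submodule.mem_sInf.1 hA) _ ⟨gspMat_lie ψ, mem_gsp hψ, mem_gsp hψ'⟩
  obtain ⟨c, hc⟩ := hgsp
  rw [mem_orth]
  intro y hy
  have h2 : (A.map (algebraMap ℚ ℂ))ᵀ * ψ.map (algebraMap ℚ ℂ) =
      (c : ℂ) • ψ.map (algebraMap ℚ ℂ) - ψ.map (algebraMap ℚ ℂ) * A.map (algebraMap ℚ ℂ) := by
    rw [eq_sub_iff_add_eq, ← Matrix.transpose_map, ← Matrix.map_mul, ← Matrix.map_mul,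
      ← Matrix.map_add _ (map_add _), hc]
    ext i j
    simp only [Matrix.map_apply, Matrix.smul_apply, smul_eq_mul, map_mul]
    rfl
  have h3 : (A.map (algebraMap ℚ ℂ) *ᵥ x) ⬝ᵥ ψ.map (algebraMap ℚ ℂ) *ᵥ star y =
      x ⬝ᵥ ((A.map (algebraMap ℚ ℂ))ᵀ * ψ.map (algebraMap ℚ ℂ)) *ᵥ star y := by
    rw [← Matrix.mulVec_mulVec, Matrix.dotProduct_mulVec x, Matrix.vecMul_transpose]
  have h4 : A.map (algebraMap ℚ ℂ) *ᵥ star y = star (A.map (algebraMap ℚ ℂ) *ᵥ y) := by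
    rw [star_mulVec_map]
    congr 1
    ext i j
    exact (Complex.conj_ofReal _).symm.trans (by
      simp only [Matrix.map_apply]
      rw [eq_ratCast, Complex.ofReal_ratCast])
  rw [h3, h2, Matrix.sub_mulVec, dotProduct_sub, Matrix.smul_mulVec, dotProduct_smul,
    mem_orth.1 hx y hy, smul_zero, zero_sub, ← Matrix.mulVec_mulVec, h4,
    mem_orth.1 hx _ (hN A hA y hy), neg_zero]

end mt

end

end Run7.h514.MT
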