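import Pool.Agent.N184.HK.Cnj
import Pool.Agent.Run7.h615.MT.So

/-!
# Semisimplicity of one operator: from `H²` to `H^i`

Over the project MT457 of helper457: an operator `φ` on `W` which normalizes the action of `so(V, q)`
on `W`, acts on it as the conjugation by a diagonalizable operator of `V`, and has a power which
commutes with the commutant of `so(V, q)`, is diagonalizable.
-/

set_option autoImplicit false
set_option linter.unusedSectionVars false

namespace Run7.h514.MT

open Module Module.End Pool.Agent.N184.HK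

section one

variable {K H : Type} [Field K] [AddCommGroup H] [Module K H]

/-- The generalized eigenvectors of `φ` are eigenvectors. -/
def Dg (φ : Module.End K H) : Prop := ∀ e : K, ∀ x ∈ φ.maxGenEigenspace e, φ x = e • x

variable [FiniteDimensional K H]

theorem root_of_mem {φ : Module.End K H} {e : K} {x : H} (hx : x ∈ φ.maxGenEigenspace e)
    (hx0 : x ≠ 0) : e ∈ φ.charpoly.roots :=
  ne_bot_iff.1 fun h => hx0 (by rw [h, Submodule.mem_bot] at hx; exact hx)

theorem pow_mem {φ : Module.End K H} {e : K} {x : H} (hx : x ∈ φ.maxGenEigenspace e) (N : ℕ) :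
    x ∈ (φ ^ N).maxGenEigenspace (e ^ N) := by
  rw [Module.End.mem_maxGenEigenspace] at hx ⊢
  obtain ⟨k, hk⟩ := hx
  refine ⟨k, ?_⟩
  have hc : Commute φ (e • (1 : Module.End K H)) := (Commute.one_right φ).smul_right e
  have h1 : φ ^ N - e ^ N • (1 : Module.End K H) =
      (∑ i ∈ Finset.range N, φ ^ i * (e • (1 : Module.End K H)) ^ (N - 1 - i)) *
        (φ - e • 1) := by
    rw [hc.geom_sum₂_mul, smul_pow, one_pow]
  have hc2 : Commute (∑ i ∈ Finset.range N, φ ^ i * (e • (1 : Module.End K H)) ^ (N - 1 - i))
      (φ - e • 1) := by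
    refine Commute.sum_left _ _ _ fun i _ => ?_
    refine Commute.mul_left ?_ ?_
    · exact ((Commute.refl φ).pow_left i).sub_right ((Commute.one_right _).smul_right e)
    · refine Commute.pow_left ?_ _
      exact ((Commute.one_left _).smul_left e)
  rw [h1, hc2.mul_pow, Module.End.mul_apply, hk, map_zero]

end one

section two

variable {K H V : Type} [Field K] [IsAlgClosed K] [CharZero K] [AddCommGroup H] [Module K H]
  [FiniteDimensional K H] [AddCommGroup V] [Module K V] [FiniteDimensional K V]

/-- The conjugation by a diagonalizable operator is diagonalizable. -/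
theorem ad_dg {φ : V ≃ₗ[K] V} (h : Dg (en φ)) : Dg (adE φ) := by
  intro t A hA
  refine ext_gen (en φ) fun e x hx => ?_
  by_cases hx0 : x = 0
  · rw [hx0, map_zero, map_zero]
  have he : e ≠ 0 := root_ne (root_of_mem hx hx0)
  have h1 : φ x = e • x := h e x hx
  have h2 : φ (A x) = (t * e) • A x := h _ _ (conj_gen hA hx)
  have h3 := adE_apply φ A x
  rw [h1, map_smul, h2, mul_comm, mul_smul] at h3
  exact smul_right_injective _ he h3

variable {φV : V ≃ₗ[K] V} {φH : H ≃ₗ[K] H} {ρ : Module.End K V →ₗ[K] Module.End K H}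

/-- The inverse of the semisimple part of `φ`. -/
noncomputable def sinv (φ : Module.End K H) : Module.End K H := fop φ fun e => e⁻¹

/-- The unipotent part of `φ`. -/
noncomputable def upart (φ : Module.End K H) : Module.End K H := sinv φ * φ

theorem sinv_comm (φ : Module.End K H) : Commute φ (sinv φ) := fop_comm (Commute.refl φ) _

theorem upart_comm (hc : ∀ A, adE φH (ρ A) = ρ (adE φV A)) (h : Dg (en φV))
    (A : Module.End K V) : Commute (ρ A) (upart (en φH)) := by
  have key : (LinearMap.mulLeft K (upart (en φH)) - LinearMap.mulRight K (upart (en φH))) ∘ₗ ρ =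
      0 := by
    refine ext_gen (adE φV) fun t A hA => ?_
    have h1 : adE φV A = t • A := ad_dg h t A hA
    change upart (en φH) * ρ A - ρ A * upart (en φH) = 0
    by_cases ht : t = 0
    · have h2 : A = 0 := by
        rw [ht, zero_smul] at h1
        exact (LinearEquiv.map_eq_zero_iff φV.conj).1 h1
      rw [h2, map_zero, mul_zero, zero_mul, sub_zero]
    have h2 : adE φH (ρ A) = t • ρ A := by rw [hc, h1, map_smul]
    have h3 : ρ A ∈ (adE φH).maxGenEigenspace t := by
      rw [Module.End.mem_maxGenEigenspace]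
      refine ⟨1, ?_⟩
      rw [pow_one, LinearMap.sub_apply, h2]
      exact sub_self _
    rw [sub_eq_zero]
    refine ext_gen (en φH) fun e x hx => ?_
    have h4 : ρ A x ∈ (en φH).maxGenEigenspace (t * e) := conj_gen h3 hx
    have h5 : φH x ∈ (en φH).maxGenEigenspace e :=
      (en φH).mapsTo_maxGenEigenspace_of_comm (Commute.refl _) e hx
    have h6 : ρ A (φH x) ∈ (en φH).maxGenEigenspace (t * e) := conj_gen h3 h5
    have h7 : φH (ρ A x) = t • ρ A (φH x) := by
      rw [← adE_apply, h2]
      rfl
    change sinv (en φH) (φH (ρ A x)) = ρ A (sinv (en φH) (φH x))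
    rw [h7, map_smul]
    unfold sinv
    rw [fop_apply _ h6, fop_apply _ h5, map_smul, smul_smul, mul_inv, ← mul_assoc,
      mul_inv_cancel₀ ht, one_mul]
  exact (sub_eq_zero.1 (congrArg (fun f => f A) key)).symm

theorem upart_nil (φH : H ≃ₗ[K] H) : IsNilpotent (upart (en φH) - 1) := by
  have h1 : upart (en φH) - 1 = sinv (en φH) * (en φH - fop (en φH) fun x => x) := by
    rw [mul_sub]
    congr 1
    refine ext_gen (en φH) fun e x hx => ?_
    by_cases hx0 : x = 0
    · rw [hx0, map_zero, map_zero]
    have he : e ≠ 0 := root_ne (root_of_mem hx hx0)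
    unfold sinv
    rw [fop_mul, fop_apply _ hx, inv_mul_cancel₀ he, one_smul]
    rfl
  rw [h1]
  refine Commute.isNilpotent_mul_left ?_ (nil_part _)
  exact (sinv_comm _).symm.sub_right (by
    unfold sinv
    exact fop_comm (self_comm_fop _ _).symm _ |>.symm)

theorem dg_of_upart {φH : H ≃ₗ[K] H} (h : upart (en φH) = 1) : Dg (en φH) := by
  intro e x hx
  have h1 : φH x ∈ (en φH).maxGenEigenspace e :=
    (en φH).mapsTo_maxGenEigenspace_of_comm (Commute.refl _) e hx
  by_cases hx0 : x = 0
  · rw [hx0, map_zero, smul_zero]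
  have he : e ≠ 0 := root_ne (root_of_mem hx hx0)
  have h2 : sinv (en φH) (φH x) = x := congrArg (fun f : Module.End K H => f x) h
  unfold sinv at h2
  rw [fop_apply _ h1] at h2
  change φH x = e • x
  conv_rhs => rw [← h2]
  rw [smul_smul, mul_inv_cancel₀ he, one_smul]

/-- An operator which commutes with a power of `φ` commutes with the same power of the unipotent
part. -/
theorem comm_upart_pow {φH : H ≃ₗ[K] H} {c : Module.End K H} {N : ℕ} (hc : Commute c (en φH ^ N)) :
    Commute c (upart (en φH) ^ N) := by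
  have h1 : sinv (en φH) ^ N = fop (en φH ^ N) fun e => e⁻¹ := by
    refine ext_gen (en φH) fun e x hx => ?_
    rw [fop_apply _ (pow_mem hx N)]
    have h2 : ∀ M : ℕ, (sinv (en φH) ^ M) x = (e ^ M)⁻¹ • x := by
      intro M
      induction M with
      | zero => simp
      | succ M ih =>
        rw [_root_.pow_succ', Module.End.mul_apply, ih, map_smul]
        unfold sinv
        rw [fop_apply _ hx, smul_smul, _root_.pow_succ, mul_inv]
    exact h2 N
  unfold upart
  rw [(sinv_comm (en φH)).symm.mul_pow, h1]
  exact (fop_comm hc _).mul_right hc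

/-- A unipotent operator of finite order is the identity. -/
theorem unip_one {u : Module.End K H} (hu : IsNilpotent (u - 1)) {N : ℕ} (hN : N ≠ 0)
    (h : u ^ N = 1) : u = 1 := by
  have h1 : (∑ j ∈ Finset.range N, u ^ j) * (u - 1) = 0 := by
    rw [geom_sum_mul, h, sub_self]
  have hcm : Commute u (u - 1) := (Commute.refl u).sub_right (Commute.one_right _)
  have h2 : ∀ j : ℕ, IsNilpotent (u ^ j - 1) ∧ Commute (u ^ j - 1) u := by
    intro j
    refine ⟨?_, ?_⟩
    · rw [← geom_sum_mul]
      refine Commute.isNilpotent_mul_left ?_ hu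
      exact Commute.sum_left _ _ _ fun i _ => hcm.pow_left i
    · exact ((Commute.refl u).pow_left j).sub_left (Commute.one_left _)
  have h3 : ∀ s : Finset ℕ, IsNilpotent (∑ j ∈ s, (u ^ j - 1)) := by
    intro s
    induction s using Finset.induction_on with
    | empty => simp
    | insert a s ha ih =>
      rw [Finset.sum_insert ha]
      refine Commute.isNilpotent_add ?_ (h2 a).1 ih
      refine Commute.sum_right _ _ _ fun j _ => ?_
      exact ((h2 a).2.pow_right j).sub_right (Commute.one_right _)
  have h4 : (∑ j ∈ Finset.range N, u ^ j) = (N : K) • 1 + ∑ j ∈ Finset.range N, (u ^ j - 1) := by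
    rw [Finset.sum_sub_distrib, Finset.sum_const, Finset.card_range, Nat.cast_smul_eq_nsmul]
    abel
  have hNK : (N : K) ≠ 0 := by exact_mod_cast hN
  have h5 : IsUnit (∑ j ∈ Finset.range N, u ^ j) := by
    rw [h4]
    have h6 : IsUnit ((N : K) • (1 : Module.End K H)) := by
      refine ⟨⟨(N : K) • 1, (N : K)⁻¹ • 1, ?_, ?_⟩, rfl⟩
      · rw [smul_mul_smul_comm, mul_inv_cancel₀ hNK, one_smul, one_mul]
      · rw [smul_mul_smul_comm, inv_mul_cancel₀ hNK, one_smul, one_mul]
    refine (h3 (Finset.range N)).isUnit_add_left_of_commute h6 ?_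
    exact (Commute.one_right _).smul_right _
  exact sub_eq_zero.1 (h5.mul_right_eq_zero.1 h1)

/-- **One operator.** -/
theorem dg_of_dg {q : LinearMap.BilinForm K V} (hs : q.IsSymm) (hn : q.Nondegenerate)
    (h3 : 3 ≤ Module.finrank K V)
    (hρ : ∀ A B, Skew q A → Skew q B → ρ (A * B - B * A) = ρ A * ρ B - ρ B * ρ A)
    (hc : ∀ A, adE φH (ρ A) = ρ (adE φV A)) (h : Dg (en φV)) {N : ℕ} (hN : N ≠ 0)
    (hcen : ∀ c : Module.End K H, (∀ A, Skew q A → Commute (ρ A) c) → Commute c (en φH ^ N)) :
    Dg (en φH) := by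
  refine dg_of_upart (unip_one (upart_nil φH) hN ?_)
  have hnil : IsNilpotent (upart (en φH) ^ N - 1) := by
    rw [← geom_sum_mul]
    refine Commute.isNilpotent_mul_left ?_ (upart_nil φH)
    exact Commute.sum_left _ _ _ fun i _ =>
      (((Commute.refl _).sub_right (Commute.one_right _)).pow_left i)
  have hcc : ∀ c : Module.End K H, (∀ A, Skew q A → Commute (ρ A) c) →
      Commute c (upart (en φH) ^ N - 1) := fun c hc' =>
    (comm_upart_pow (hcen c hc')).sub_right (Commute.one_right _)
  refine sub_eq_zero.1 (Run7.h615.MT.nilz hs hn h3 ρ hρ _ (fun A _ =>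
    ((upart_comm hc h A).pow_right N).sub_right (Commute.one_right _)) hcc ?_)
  intro z _ hz
  exact tr_nil (Commute.isNilpotent_mul_right (hcc z hz).symm hnil)

end two

end Run7.h514.MT
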