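import Pool.Agent.Run7.h615.MT.Kron
import Pool.Agent.Run7.h457.MT.Iface2
import Pool.Agent.Run7.h514.MT.Semi

/-!
# Semisimple matrices

Over the project MT457 of helper457: matrices with squarefree minimal polynomial.
-/

set_option autoImplicit false
set_option linter.unusedSectionVars false

namespace Run7.h514.MT

open Matrix Module Polynomial
open Run7.h457.MT Run7.h615.MT

noncomputable section

section ss

variable {κ F : Type} [Fintype κ] [DecidableEq κ] [Field F]

/-- The matrix `A` is semisimple: its minimal polynomial is squarefree. -/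
def SS (A : Matrix κ κ F) : Prop := Squarefree (minpoly F A)

theorem ss_of_aeval {A : Matrix κ κ F} {p : F[X]} (hp : Squarefree p) (h : aeval A p = 0) :
    SS A := hp.squarefree_of_dvd (minpoly.dvd F A h)

theorem ss_iff (A : Matrix κ κ F) :
    SS A ↔ Module.End.IsSemisimple (M := κ → F) (Matrix.toLin' A) := by
  constructor
  · intro h
    have h1 : aeval (Matrix.toLin' A) (minpoly F A) = 0 := by
      rw [← Matrix.minpoly_toLin' A]
      exact minpoly.aeval _ _
    exact Module.End.isSemisimple_of_squarefree_aeval_eq_zero h h1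
  · intro h
    have h1 := h.minpoly_squarefree
    rwa [Matrix.minpoly_toLin'] at h1

theorem ss_one : SS (1 : Matrix κ κ F) := by
  rw [ss_iff, Matrix.toLin'_one]
  exact Module.End.isSemisimple_id

theorem ss_mul [CharZero F] {A B : Matrix κ κ F} (h : Commute A B) (hA : SS A) (hB : SS B) :
    SS (A * B) := by
  rw [ss_iff] at hA hB ⊢
  rw [Matrix.toLin'_mul]
  refine Module.End.IsSemisimple.mul_of_commute (f := Matrix.toLin' A) (g := Matrix.toLin' B) ?_
    hA hB
  change Matrix.toLin' A ∘ₗ Matrix.toLin' B = Matrix.toLin' B ∘ₗ Matrix.toLin' A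
  rw [← Matrix.toLin'_mul, ← Matrix.toLin'_mul, h.eq]

end ss

section tensor

variable {S : Type} [Fintype S] [DecidableEq S] {I : S → Type} [∀ s, Fintype (I s)]
  [∀ s, DecidableEq (I s)] {F : Type} [Field F]

/-- The factor `s` as an algebra homomorphism. -/
def facHom (s : S) : Matrix (I s) (I s) F →ₐ[F] Matrix (∀ s, I s) (∀ s, I s) F where
  toFun := fac s
  map_one' := by
    unfold fac
    rw [← kron_one]
    congr 1
    exact Function.update_eq_self_iff.2 rfl
  map_mul' A B := (fac_mul s A B).symm
  map_zero' := by
    have h := fac_sub s (0 : Matrix (I s) (I s) F) 0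
    rwa [sub_self, sub_self] at h
  map_add' A B := by
    have h0 : fac s (0 : Matrix (I s) (I s) F) = 0 := by
      have h := fac_sub s (0 : Matrix (I s) (I s) F) 0
      rwa [sub_self, sub_self] at h
    have h1 := fac_sub s A (0 - B)
    have h2 := fac_sub s 0 B
    rw [h2, h0, zero_sub, sub_neg_eq_add] at h1
    rw [h1, zero_sub, sub_neg_eq_add]
  commutes' r := by
    ext u v
    change kron (Function.update (fun s => (1 : Matrix (I s) (I s) F)) s
      (algebraMap F (Matrix (I s) (I s) F) r)) u v = _
    rw [kron_update_apply]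
    by_cases h : u = v
    · subst h
      rw [Matrix.algebraMap_matrix_apply, Matrix.algebraMap_matrix_apply, if_pos rfl, if_pos rfl,
        Finset.prod_eq_one fun k _ => Matrix.one_apply_eq _, mul_one]
    · have h2 : (algebraMap F (Matrix (∀ s, I s) (∀ s, I s) F) r) u v = 0 := by
        rw [Matrix.algebraMap_matrix_apply, if_neg h]
      rw [h2]
      obtain ⟨k, hk⟩ := Function.ne_iff.1 h
      by_cases hks : k = s
      · subst hks
        rw [Matrix.algebraMap_matrix_apply, if_neg hk, zero_mul]
      · exact mul_eq_zero_of_right _ (Finset.prod_eq_zero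
          (Finset.mem_erase.2 ⟨hks, Finset.mem_univ k⟩) (Matrix.one_apply_ne hk))

theorem ss_fac (s : S) {A : Matrix (I s) (I s) F} (h : SS A) : SS (fac s A) := by
  refine ss_of_aeval h ?_
  change aeval (facHom s A) (minpoly F A) = 0
  rw [Polynomial.aeval_algHom_apply, minpoly.aeval, map_zero]

theorem kron_insert (A : ∀ s, Matrix (I s) (I s) F) {a : S} {T : Finset S} (ha : a ∉ T) :
    kron (fun s => if s ∈ insert a T then A s else 1) =
      fac a (A a) * kron (fun s => if s ∈ T then A s else 1) ∧
    kron (fun s => if s ∈ insert a T then A s else 1) =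
      kron (fun s => if s ∈ T then A s else 1) * fac a (A a) := by
  unfold fac
  rw [kron_mul, kron_mul]
  constructor
  · congr 1
    funext s
    by_cases hs : s = a
    · subst hs
      rw [if_pos (Finset.mem_insert_self _ _), if_neg ha, Function.update_self, mul_one]
    · rw [Function.update_of_ne hs, one_mul]
      by_cases hT : s ∈ T
      · rw [if_pos hT, if_pos (Finset.mem_insert_of_mem hT)]
      · rw [if_neg hT, if_neg fun h => (Finset.mem_insert.1 h).elim hs hT]
  · congr 1
    funext s
    by_cases hs : s = a
    · subst hs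
      rw [if_pos (Finset.mem_insert_self _ _), if_neg ha, Function.update_self, one_mul]
    · rw [Function.update_of_ne hs, mul_one]
      by_cases hT : s ∈ T
      · rw [if_pos hT, if_pos (Finset.mem_insert_of_mem hT)]
      · rw [if_neg hT, if_neg fun h => (Finset.mem_insert.1 h).elim hs hT]

/-- The tensor product of semisimple matrices is semisimple. -/
theorem ss_kron [CharZero F] {A : ∀ s, Matrix (I s) (I s) F} (h : ∀ s, SS (A s)) :
    SS (kron A) := by
  have key : ∀ T : Finset S, SS (kron (fun s => if s ∈ T then A s else 1)) := by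
    intro T
    induction T using Finset.induction_on with
    | empty =>
      have h1 : (fun s => if s ∈ (∅ : Finset S) then A s else 1) = fun s => 1 := by
        funext s
        rw [if_neg (Finset.notMem_empty s)]
      rw [h1, kron_one]
      exact ss_one
    | insert a T ha ih =>
      rw [(kron_insert A ha).1]
      refine ss_mul ?_ (ss_fac a (h a)) ih
      change _ * _ = _ * _
      rw [← (kron_insert A ha).1, ← (kron_insert A ha).2]
  have h1 := key Finset.univ
  simpa only [Finset.mem_univ, if_true] using h1

end tensor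

section block

variable {o : Type} [Fintype o] [DecidableEq o] {m : o → Type} [∀ a, Fintype (m a)]
  [∀ a, DecidableEq (m a)] {F : Type} [Field F]

/-- The block diagonal matrices as an algebra homomorphism. -/
def bdHom : (∀ a, Matrix (m a) (m a) F) →ₐ[F] Matrix (Σ a, m a) (Σ a, m a) F where
  toFun := Matrix.blockDiagonal'
  map_one' := Matrix.blockDiagonal'_one
  map_mul' A B := Matrix.blockDiagonal'_mul _ _
  map_zero' := Matrix.blockDiagonal'_zero
  map_add' A B := Matrix.blockDiagonal'_add _ _
  commutes' r := by
    rw [Algebra.algebraMap_eq_smul_one, Algebra.algebraMap_eq_smul_one,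
      Matrix.blockDiagonal'_smul, Matrix.blockDiagonal'_one]

/-- A block diagonal matrix with semisimple blocks is semisimple. -/
theorem ss_block {A : ∀ a, Matrix (m a) (m a) F} (h : ∀ a, SS (A a)) :
    SS (Matrix.blockDiagonal' A) := by
  have hne : ∏ a, minpoly F (A a) ≠ 0 :=
    Finset.prod_ne_zero_iff.2 fun a _ => minpoly.ne_zero (Matrix.isIntegral _)
  obtain ⟨p, n, hp, -, hn⟩ := exists_squarefree_dvd_pow_of_ne_zero hne
  refine ss_of_aeval hp ?_
  change aeval (bdHom A) p = 0
  rw [Polynomial.aeval_algHom_apply]
  have h1 : aeval A p = 0 := by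
    funext a
    have h2 : (aeval A p) a = aeval (A a) p := by
      rw [show A a = Pi.evalAlgHom F (fun a => Matrix (m a) (m a) F) a A from rfl,
        Polynomial.aeval_algHom_apply]
      rfl
    rw [h2]
    have h3 : minpoly F (A a) ∣ p := by
      have h4 : minpoly F (A a) ∣ ∏ a, minpoly F (A a) :=
        Finset.dvd_prod_of_mem _ (Finset.mem_univ a)
      have h5 := (h4.trans hn).trans (pow_dvd_pow p (Nat.le_succ n))
      exact (Squarefree.dvd_pow_iff_dvd (h a) (Nat.succ_ne_zero n)).1 h5
    exact aeval_eq_zero_of_dvd_aeval_eq_zero h3 (minpoly.aeval _ _)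
  rw [h1, map_zero]

end block

section kun

variable {S : Type} [Fintype S] [DecidableEq S]

theorem ss_kun {F : Type} [Field F] [CharZero F] {n : S → ℕ → ℕ} (d : S → ℕ) (i : ℕ)
    {A : ∀ s j, Matrix (Fin (n s j)) (Fin (n s j)) F} (h : ∀ s, ∀ j ≤ d s, SS (A s j)) :
    SS (kun d i A) :=
  ss_block fun a => ss_kron fun s => h s _ (Nat.lt_succ_iff.1 (a.1 s).2)

end kun

end

end Run7.h514.MT
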