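import Pool.Agent.Run7.h457.MT.Fg
import Pool.Agent.Run7.h514.MT.Ss

/-!
# Semisimplicity of the elements of the Galois group: from `H²` to the cohomology of all products

Over the project MT457 of helper457.
-/

set_option autoImplicit false
set_option linter.unusedSectionVars false

namespace Run7.h514.MT

open Matrix Module Polynomial NumberField Pool.Agent.N184.HK Pool.Agent.W401.Cheb
open Run7.h457.MT

noncomputable section

section dg

variable {κ F E H : Type} [Fintype κ] [DecidableEq κ] [Field F] [CharZero F] [Field E]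
  [IsAlgClosed E] [CharZero E] [Algebra F E] [AddCommGroup H] [Module E H]
  [FiniteDimensional E H]

theorem toM_aeval (b : Basis κ E H) {φ : Module.End E H} {A : Matrix κ κ F}
    (h : LinearMap.toMatrix b b φ = A.map (algebraMap F E)) (p : F[X]) :
    LinearMap.toMatrix b b (aeval φ (p.map (algebraMap F E))) =
      (aeval A p).map (algebraMap F E) := by
  have h1 : LinearMap.toMatrix b b (aeval φ (p.map (algebraMap F E))) =
      aeval (LinearMap.toMatrix b b φ) (p.map (algebraMap F E)) :=
    (Polynomial.aeval_algHom_apply (LinearMap.toMatrixAlgEquiv b).toAlgHom φ _).symm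
  have h2 : (algebraMap F E).mapMatrix (aeval A p) =
      aeval ((algebraMap F E).mapMatrix A) (p.map (algebraMap F E)) := by
    refine map_aeval_eq_aeval_map ?_ p A
    refine RingHom.ext fun r => ?_
    ext i j
    change algebraMap E (Matrix κ κ E) (algebraMap F E r) i j =
      algebraMap F E (algebraMap F (Matrix κ κ F) r i j)
    rw [Matrix.algebraMap_matrix_apply, Matrix.algebraMap_matrix_apply]
    split_ifs
    · rfl
    · exact (map_zero _).symm
  rw [h1, h]
  exact h2.symm

theorem dg_of_ss (b : Basis κ E H) {φ : Module.End E H} {A : Matrix κ κ F}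
    (h : LinearMap.toMatrix b b φ = A.map (algebraMap F E)) (hA : SS A) : Dg φ := by
  have h1 : aeval φ ((minpoly F A).map (algebraMap F E)) = 0 := by
    refine (LinearMap.toMatrix b b).injective ?_
    rw [toM_aeval b h, minpoly.aeval, map_zero, Matrix.map_zero _ (map_zero _)]
  have h2 : Squarefree ((minpoly F A).map (algebraMap F E)) :=
    (PerfectField.separable_iff_squarefree.2 hA).map.squarefree
  have h3 := Module.End.isSemisimple_of_squarefree_aeval_eq_zero h2 h1
  intro e x hx
  rw [h3.isFinitelySemisimple.maxGenEigenspace_eq_eigenspace e] at hx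
  exact Module.End.mem_eigenspace_iff.1 hx

theorem ss_of_dg (b : Basis κ E H) {φ : Module.End E H} {A : Matrix κ κ F}
    (h : LinearMap.toMatrix b b φ = A.map (algebraMap F E)) (hφ : Dg φ) : SS A := by
  obtain ⟨p, n, hp, -, hn⟩ :=
    exists_squarefree_dvd_pow_of_ne_zero (minpoly.ne_zero (Matrix.isIntegral A))
  refine ss_of_aeval hp ?_
  have hN : aeval φ ((p ^ n).map (algebraMap F E)) = 0 := by
    refine (LinearMap.toMatrix b b).injective ?_
    rw [toM_aeval b h, aeval_eq_zero_of_dvd_aeval_eq_zero hn (minpoly.aeval _ _), map_zero,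
      Matrix.map_zero _ (map_zero _)]
  have h0 : aeval φ (p.map (algebraMap F E)) = 0 := by
    refine ext_gen φ fun e x hx => ?_
    by_cases hx0 : x = 0
    · rw [hx0, map_zero, map_zero]
    have hev : φ.HasEigenvector e x := ⟨Module.End.mem_eigenspace_iff.2 (hφ e x hx), hx0⟩
    have h1 : aeval φ ((p ^ n).map (algebraMap F E)) x = 0 := by rw [hN]; rfl
    rw [Module.End.aeval_apply_of_hasEigenvector hev, Polynomial.map_pow, eval_pow] at h1
    rw [Module.End.aeval_apply_of_hasEigenvector hev,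
      eq_zero_of_pow_eq_zero ((smul_eq_zero.1 h1).resolve_right hx0), zero_smul]
    rfl
  have h1 : (aeval A p).map (algebraMap F E) = 0 := by
    rw [← toM_aeval b h, h0, map_zero]
  refine Matrix.map_injective (algebraMap F E).injective ?_
  exact h1.trans (Matrix.map_zero _ (map_zero _)).symm

end dg

variable {K : Type} [Field K] [NumberField K] {ℓ : ℕ} [Fact ℓ.Prime]

section one

variable {X : HKVariety K (PadicAlgCl ℓ)} {B : LLV X.d} (Y : Comparison X B)

include Y in
theorem phi_pow (i : ℕ) (σ : GK K) (N : ℕ) : X.E.Φ (σ ^ N) i = X.E.Φ σ i ^ N := by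
  refine toM_inj Y ?_
  rw [Y.hG, map_pow, ← LinearMap.toMatrix_pow, Y.hG]
  exact map_pow (algebraMap ℚ_[ℓ] (PadicAlgCl ℓ)).mapMatrix (Y.G i σ) N

/-- An element of the Galois group which is semisimple on `H²` is semisimple on `H^i`. -/
theorem ss_of_two (hcft : CFT K ℓ) (hT : ∀ Q : Ideal (𝓞 (AlgebraicClosure K)), Q.IsMaximal →
    (ℓ : 𝓞 (AlgebraicClosure K)) ∈ Q → Nonempty (HodgeTate Y Q)) {i : ℕ} (hi : i ≤ X.d)
    {σ : GK K} (h : SS (Y.G 2 σ)) : SS (Y.G i σ) := by
  obtain ⟨U, hU, htr⟩ := triv Y hcft hT hi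
  have hUf : U.FiniteIndex := open_finite hU
  obtain ⟨N, hN0, -, hN⟩ := Subgroup.exists_pow_mem_of_index_ne_zero hUf.index_ne_zero σ
  refine ss_of_dg (Y.b i) (Y.hG i σ) ?_
  refine dg_of_dg (φV := (X.E.F σ).φ 2) (φH := (X.E.F σ).φ i) (ρ := X.E.X.ρ i) X.E.X.symm
    X.E.X.nondeg X.E.X.dim3 (X.E.X.bracket i) ((X.E.F σ).hc i)
    (dg_of_ss (Y.b 2) (Y.hG 2 σ) h) hN0.ne' fun c hc => ?_
  have h1 := htr _ hN c hc
  rw [phi_pow Y] at h1
  exact h1

end one

variable {T : Type} [Fintype T] {X : T → HKVariety K (PadicAlgCl ℓ)} {B : ∀ t, LLV (X t).d}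

/-- **An element of the Galois group which is semisimple on `H²(X_t)` for all `t` is semisimple on the
cohomology of all products of the `X_t`.** -/
theorem ss_all (C : ∀ t, Comparison (X t) (B t)) (hcft : CFT K ℓ)
    (hT : ∀ t, ∀ Q : Ideal (𝓞 (AlgebraicClosure K)), Q.IsMaximal →
      (ℓ : 𝓞 (AlgebraicClosure K)) ∈ Q → Nonempty (HodgeTate (C t) Q))
    {σ : GK K} (h : ∀ t, SS ((C t).G 2 σ)) {S : Type} [Fintype S] [DecidableEq S] (τ : S → T)
    (i : ℕ) : SS (kunRep B (fun t i => (C t).G i) τ i σ) :=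
  ss_kun _ i fun s _ hj => ss_of_two (C (τ s)) hcft (hT (τ s)) hj (h (τ s))

end

end Run7.h514.MT
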