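import Pool.Agent.Run7.h457.MT.Family
import Pool.Agent.Run7.h411.Cft7
import Pool.Agent.Run7.h514.MT.Frob

/-!
# Semisimplicity of the elements of the Galois group on products of hyperkähler varieties
-/

set_option autoImplicit false
set_option linter.unusedSectionVars false

namespace Run7.h514.MT

open NumberField Pool.Agent.W401.Cheb Run7.h457.MT

/-- **An element of the Galois group which is semisimple on `H²(V s)` for all `s` is semisimple on
`H^i` of the product of the varieties `V s`.** -/
theorem ss_gal {K : Type} [Field K] [NumberField K] {ℓ : ℕ} [Fact ℓ.Prime] {S : Type} [Fintype S]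
    [DecidableEq S] (V : S → HK K ℓ) {σ : GK K} (h : ∀ s, SS ((V s).C.G 2 σ)) (i : ℕ) :
    SS (gal V i σ) :=
  ss_kun _ i fun s _ hj =>
    ss_of_two (V s).C.old (Run7.h411.Cft.cft K ℓ) (fun Q hQ hl => (V s).old Q hQ hl) hj (h s)

end Run7.h514.MT
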