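import Pool.Agent.Run7.h514.MT.PolDef
import Pool.Agent.Run7.h514.MT.Desc

/-!
# Polarizations of products
-/

set_option autoImplicit false
set_option linter.unusedSectionVars false

namespace Run7.h514.MT

open Matrix Module
open Run7.h457.MT Run7.h615.MT
open scoped ComplexOrder

noncomputable section

section kron

variable {S : Type} [Fintype S] [DecidableEq S] {I : S → Type} [∀ s, Fintype (I s)]
  [∀ s, DecidableEq (I s)]

theorem kron_conjTranspose (A : ∀ s, Matrix (I s) (I s) ℂ) :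
    (kron A)ᴴ = kron fun s => (A s)ᴴ := by
  ext u v
  change star (∏ s, A s (v s) (u s)) = ∏ s, star (A s (v s) (u s))
  rw [star_prod]

theorem kron_transpose {F : Type} [Field F] (A : ∀ s, Matrix (I s) (I s) F) :
    (kron A)ᵀ = kron fun s => (A s)ᵀ := rfl

theorem kron_update {F : Type} [Field F] (ψ : ∀ s, Matrix (I s) (I s) F) (s : S)
    (A : Matrix (I s) (I s) F) (u v : ∀ s, I s) :
    kron (Function.update ψ s A) u v =
      A (u s) (v s) * ∏ k ∈ Finset.univ.erase s, ψ k (u k) (v k) := by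
  change ∏ k, Function.update ψ s A k (u k) (v k) = _
  rw [← Finset.mul_prod_erase _ _ (Finset.mem_univ s), Function.update_self]
  congr 1
  refine Finset.prod_congr rfl fun k hk => ?_
  rw [Function.update_of_ne (Finset.ne_of_mem_erase hk)]

/-- The relation of a form with the operator `dkron D`. -/
theorem kron_form {F : Type} [Field F] (ψ D : ∀ s, Matrix (I s) (I s) F) (w : S → F)
    (h : ∀ s, (D s)ᵀ * ψ s + ψ s * D s = w s • ψ s) :
    (dkron D)ᵀ * kron ψ + kron ψ * dkron D = (∑ s, w s) • kron ψ := by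
  have h1 : ∀ s, (kron (Function.update (fun _ => 1) s (D s)))ᵀ * kron ψ =
      kron (Function.update ψ s ((D s)ᵀ * ψ s)) := by
    intro s
    rw [kron_transpose, kron_mul]
    congr 1
    funext k
    by_cases hk : k = s
    · subst hk
      rw [Function.update_self, Function.update_self]
    · rw [Function.update_of_ne hk, Function.update_of_ne hk, Matrix.transpose_one, one_mul]
  have h2 : ∀ s, kron ψ * kron (Function.update (fun _ => 1) s (D s)) =
      kron (Function.update ψ s (ψ s * D s)) := by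
    intro s
    rw [kron_mul]
    congr 1
    funext k
    by_cases hk : k = s
    · subst hk
      rw [Function.update_self, Function.update_self]
    · rw [Function.update_of_ne hk, Function.update_of_ne hk, mul_one]
  have h3 : ∀ s, kron (Function.update ψ s ((D s)ᵀ * ψ s)) +
      kron (Function.update ψ s (ψ s * D s)) = w s • kron ψ := by
    intro s
    ext u v
    rw [Matrix.add_apply, kron_update, kron_update, ← add_mul, ← Matrix.add_apply, h s,
      Matrix.smul_apply, Matrix.smul_apply, smul_eq_mul, smul_eq_mul, mul_assoc]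
    congr 1
    exact Finset.mul_prod_erase _ (fun k => ψ k (u k) (v k)) (Finset.mem_univ s)
  unfold dkron
  rw [Matrix.transpose_sum, Finset.sum_mul, Finset.mul_sum, ← Finset.sum_add_distrib,
    Finset.sum_smul]
  refine Finset.sum_congr rfl fun s _ => ?_
  rw [h1, h2, h3]

end kron

section posdef

open scoped MatrixOrder Matrix.Norms.L2Operator in
theorem exists_root {κ : Type} [Fintype κ] [DecidableEq κ] {A : Matrix κ κ ℂ} (h : A.PosDef) :
    ∃ B : Matrix κ κ ℂ, A = Bᴴ * B := by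
  obtain ⟨B, hB⟩ := CStarAlgebra.nonneg_iff_eq_star_mul_self.mp
    (Matrix.PosSemidef.nonneg h.posSemidef)
  exact ⟨B, hB⟩

end posdef

section kun

variable {S : Type} [Fintype S] [DecidableEq S] {n : S → ℕ → ℕ} (d : S → ℕ) (i : ℕ)

theorem kun_congr {F : Type} [Field F] {A B : ∀ s j, Matrix (Fin (n s j)) (Fin (n s j)) F}
    (h : ∀ s, ∀ j ≤ d s, A s j = B s j) : kun d i A = kun d i B := by
  unfold kun
  congr 1
  funext a
  congr 1
  funext s
  exact h s _ (Nat.lt_succ_iff.1 (a.1 s).2)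

theorem kun_mul {F : Type} [Field F] (A B : ∀ s j, Matrix (Fin (n s j)) (Fin (n s j)) F) :
    kun d i A * kun d i B = kun d i fun s j => A s j * B s j :=
  ((t_KUN S n d i).1 F A B).1

theorem kun_one {F : Type} [Field F] :
    kun (n := n) d i (fun s j => (1 : Matrix (Fin (n s j)) (Fin (n s j)) F)) = 1 :=
  ((t_KUN S n d i).1 F (fun _ _ => 1) fun _ _ => 1).2.1

theorem kun_conjTranspose (A : ∀ s j, Matrix (Fin (n s j)) (Fin (n s j)) ℂ) :
    (kun d i A)ᴴ = kun d i fun s j => (A s j)ᴴ := by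
  unfold kun
  rw [Matrix.blockDiagonal'_conjTranspose]
  congr 1
  funext a
  exact kron_conjTranspose _

theorem kun_map {F F' : Type} [Field F] [Field F'] (φ : F →+* F')
    (A : ∀ s j, Matrix (Fin (n s j)) (Fin (n s j)) F) :
    (kun d i A).map φ = kun d i fun s j => (A s j).map φ := by
  unfold kun
  rw [Matrix.blockDiagonal'_map _ _ (map_zero φ)]
  congr 1
  funext a
  exact (klin φ (fun s => A s (a.1 s)) (fun s => A s (a.1 s)) 0).2.2.2

theorem kun_posDef {A : ∀ s j, Matrix (Fin (n s j)) (Fin (n s j)) ℂ}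
    (h : ∀ s, ∀ j ≤ d s, (A s j).PosDef) : (kun d i A).PosDef := by
  classical
  have h1 : ∀ s j, ∃ B : Matrix (Fin (n s j)) (Fin (n s j)) ℂ, j ≤ d s → A s j = Bᴴ * B := by
    intro s j
    by_cases hj : j ≤ d s
    · obtain ⟨B, hB⟩ := exists_root (h s j hj)
      exact ⟨B, fun _ => hB⟩
    · exact ⟨1, fun h => absurd h hj⟩
  choose B hB using h1
  have h2 : kun d i A = (kun d i B)ᴴ * kun d i B := by
    rw [kun_conjTranspose, kun_mul]
    exact kun_congr d i fun s j hj => hB s j hj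
  have h3 : (kun d i A).PosSemidef := by
    rw [h2]
    exact Matrix.posSemidef_conjTranspose_mul_self _
  rw [h3.posDef_iff_isUnit]
  have h4 : kun d i A * kun d i (fun s j => (A s j)⁻¹) = 1 := by
    rw [kun_mul, ← kun_one (n := n) d i]
    refine kun_congr d i fun s j hj => ?_
    exact Matrix.mul_nonsing_inv _ ((Matrix.isUnit_iff_isUnit_det _).1 (h s j hj).isUnit)
  exact IsUnit.of_mul_eq_one _ h4

theorem kun_form {F : Type} [Field F] (ψ D : ∀ s j, Matrix (Fin (n s j)) (Fin (n s j)) F)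
    (h : ∀ s, ∀ j ≤ d s, (D s j)ᵀ * ψ s j + ψ s j * D s j = (j : F) • ψ s j) :
    (dkun d i D)ᵀ * kun d i ψ + kun d i ψ * dkun d i D = (i : F) • kun d i ψ := by
  unfold kun dkun
  rw [Matrix.blockDiagonal'_transpose, ← Matrix.blockDiagonal'_mul, ← Matrix.blockDiagonal'_mul,
    ← Matrix.blockDiagonal'_add, ← Matrix.blockDiagonal'_smul]
  congr 1
  funext a
  have h1 := kron_form (fun s => ψ s (a.1 s)) (fun s => D s (a.1 s))
    (fun s => ((a.1 s : ℕ) : F)) fun s => h s _ (Nat.lt_succ_iff.1 (a.1 s).2)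
  have h2 : ∑ s, ((a.1 s : ℕ) : F) = (i : F) := by
    have h3 := congrArg (fun k : ℕ => (k : F)) a.2
    rwa [Nat.cast_sum] at h3
  rw [h2] at h1
  exact h1

end kun

section hodge

/-- The operators `h z` are real. -/
theorem h_conj {i : ℕ} {κ : Type} [Fintype κ] [DecidableEq κ] (V : HodgeStr i κ) (z : ℂ) :
    (V.h z).map (starRingEnd ℂ) = V.h z := by
  have h1 : ∀ (s : Finset ℕ) (f : ℕ → Matrix κ κ ℂ),
      (∑ p ∈ s, f p).map (starRingEnd ℂ) = ∑ p ∈ s, (f p).map (starRingEnd ℂ) := fun s f =>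
    map_sum (starRingEnd ℂ).mapMatrix f s
  unfold HodgeStr.h
  rw [h1, ← Finset.sum_range_reflect]
  refine Finset.sum_congr rfl fun p hp => ?_
  have hp' : p ≤ i := Nat.lt_succ_iff.1 (Finset.mem_range.1 hp)
  have h2 : i + 1 - 1 - p = i - p := by omega
  have h3 : i - (i - p) = p := by omega
  rw [h2, h3]
  ext a b
  have h4 := congrFun (congrFun (V.conj (i - p) (Nat.sub_le _ _)) a) b
  rw [h3, Matrix.map_apply] at h4
  rw [Matrix.map_apply, Matrix.smul_apply, Matrix.smul_apply, smul_eq_mul, smul_eq_mul, map_mul,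
    h4, map_inv₀, map_mul, map_pow, map_pow, Complex.conj_conj, mul_comm (z ^ p)]

variable {S : Type} [Fintype S] [DecidableEq S] {n : S → ℕ → ℕ} (d : S → ℕ) (i : ℕ)
  (V : ∀ s j, HodgeStr j (Fin (n s j)))

theorem aK_add_bK (c : CIdx d i) : aK d i c + bK d i c = i := by
  unfold aK bK
  rw [← Finset.sum_add_distrib]
  have h1 : ∀ s, ((c.2 s : ℕ) : ℤ) + (((c.1.1 s : ℕ) - (c.2 s : ℕ) : ℕ) : ℤ) =
      ((c.1.1 s : ℕ) : ℤ) := by
    intro s
    have h2 : (c.2 s : ℕ) ≤ (c.1.1 s : ℕ) := Nat.lt_succ_iff.1 (c.2 s).2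
    omega
  rw [Finset.sum_congr rfl fun s _ => h1 s, ← Nat.cast_sum, c.1.2]

theorem dkun_add : dkun d i (fun s j => (V s j).D) + dkun d i (fun s j => (V s j).D') =
    (i : ℂ) • 1 := by
  rw [eK_D, eK_D', ← Finset.sum_add_distrib, ← eK_one d i V, Finset.smul_sum]
  refine Finset.sum_congr rfl fun c _ => ?_
  rw [← add_smul, ← Int.cast_add, aK_add_bK, Int.cast_natCast]

/-- **The complements in the cohomology of products.** -/
theorem compl_kun (hV : ∀ s, ∀ j ≤ d s, ∃ ψ, IsPolarization (V s j) ψ)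
    (N : Submodule ℂ (KTot n d i → ℂ))
    (hN : ∀ A ∈ mtLie (dkun d i fun s j => (V s j).D) (dkun d i fun s j => (V s j).D'),
      ∀ x ∈ N, A.map (algebraMap ℚ ℂ) *ᵥ x ∈ N) :
    ∃ Q : Matrix (KTot n d i) (KTot n d i) ℂ,
      (∀ A ∈ mtLie (dkun d i fun s j => (V s j).D) (dkun d i fun s j => (V s j).D'),
        Commute (A.map (algebraMap ℚ ℂ)) Q) ∧ (∀ x, Q *ᵥ x ∈ N) ∧ ∀ x ∈ N, Q *ᵥ x = x := by
  classical
  have h1 : ∀ s j, ∃ ψ : Matrix (Fin (n s j)) (Fin (n s j)) ℚ, j ≤ d s →
      IsPolarization (V s j) ψ := by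
    intro s j
    by_cases hj : j ≤ d s
    · obtain ⟨ψ, hψ⟩ := hV s j hj
      exact ⟨ψ, fun _ => hψ⟩
    · exact ⟨1, fun h => absurd h hj⟩
  choose ψ hψ using h1
  have hform : (dkun d i fun s j => (V s j).D)ᵀ * (kun d i ψ).map (algebraMap ℚ ℂ) +
      (kun d i ψ).map (algebraMap ℚ ℂ) * (dkun d i fun s j => (V s j).D) =
      (((i : ℕ) : ℚ) : ℂ) • (kun d i ψ).map (algebraMap ℚ ℂ) := by
    rw [kun_map, Rat.cast_natCast]
    exact kun_form d i _ _ fun s j hj => (hψ s j hj).1
  have hform' : (dkun d i fun s j => (V s j).D')ᵀ * (kun d i ψ).map (algebraMap ℚ ℂ) +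
      (kun d i ψ).map (algebraMap ℚ ℂ) * (dkun d i fun s j => (V s j).D') =
      (((i : ℕ) : ℚ) : ℂ) • (kun d i ψ).map (algebraMap ℚ ℂ) := by
    have h2 : (dkun d i fun s j => (V s j).D') = (i : ℂ) • 1 - dkun d i fun s j => (V s j).D :=
      eq_sub_of_add_eq' (dkun_add d i V)
    rw [h2, Matrix.transpose_sub, Matrix.transpose_smul, Matrix.transpose_one, sub_mul, mul_sub,
      smul_mul_assoc, one_mul, mul_smul_comm, mul_one]
    have h3 := eq_sub_of_add_eq hform
    rw [h3, Rat.cast_natCast]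
    abel
  refine compl_cpx (P := CIdx d i) (eK_mul d i V) (eK_one d i V) (eK_D d i V) (eK_D' d i V) hform
    hform' (X := kun d i fun s j => (V s j).h Complex.I) (fun k => Complex.I ^ k) ?_ ?_ ?_ N hN
  · rw [eK_h d i V Complex.I Complex.I_ne_zero]
    refine Finset.sum_congr rfl fun c _ => ?_
    rw [Complex.conj_I]
    congr 1
    have h4 : (-Complex.I) = Complex.I⁻¹ := Complex.inv_I.symm
    rw [h4, _root_.inv_zpow, ← _root_.zpow_neg, neg_neg, ← zpow_add₀ Complex.I_ne_zero]
    congr 1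
    ring
  · rw [kun_map]
    congr 1
    funext s j
    exact h_conj _ _
  · rw [kun_map, kun_mul]
    exact kun_posDef d i fun s j hj => (hψ s j hj).2

end hodge

end

end Run7.h514.MT
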