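import Pool.Agent.Run7.h457.MT.Family

/-!
# Polarizations
-/

set_option autoImplicit false

namespace Run7.h514.MT

open Run7.h457.MT NumberField
open scoped ComplexOrder

/-- A polarization of the Hodge structure `V` of weight `i`: the matrix `ψ` of a rational bilinear form
with `ψ(x, y) = 0` for `x` of type `(p, q)` and `y` of type `(p', q')`, `p + p' ≠ i`, such that the
sesquilinear form `ψ(conj x, C y)` is hermitian and positive definite, where `C = h(√-1)` is the
operator of Weil. -/
def IsPolarization {i : ℕ} {κ : Type} [Fintype κ] [DecidableEq κ] (V : HodgeStr i κ)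
    (ψ : Matrix κ κ ℚ) : Prop :=
  V.D.transpose * ψ.map (algebraMap ℚ ℂ) + ψ.map (algebraMap ℚ ℂ) * V.D =
      (i : ℂ) • ψ.map (algebraMap ℚ ℂ) ∧
    (ψ.map (algebraMap ℚ ℂ) * V.h Complex.I).PosDef

/-- All `H^i(V, ℚ)` have a polarization (which is so because the variety `V` is projective, by the
theorem of Lefschetz and the Hodge-Riemann bilinear relations). -/
def Polarizable {K : Type} [Field K] [NumberField K] {ℓ : ℕ} [Fact ℓ.Prime] (V : HK K ℓ) : Prop :=
  ∀ i ≤ V.X.d, ∃ ψ, IsPolarization (V.W.V i) ψ

end Run7.h514.MT
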