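import Pool.Agent.Run7.h514.MT.Pol
import Pool.Agent.Run7.h411.Cft7

/-!
# Semisimplicity of the Galois representations of products of hyperkähler varieties
-/

set_option autoImplicit false
set_option linter.unusedSectionVars false

namespace Run7.h514.MT

open NumberField Pool.Agent.W401.Cheb Run7.h457.MT Matrix

variable {K : Type} [Field K] [NumberField K] {ℓ : ℕ} [Fact ℓ.Prime] {T : Type} [Fintype T]
  [DecidableEq T] (V : T → HK K ℓ) {S : Type} [Fintype S] [DecidableEq S] (τ : S → T)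

/-- **Semisimplicity.** Every subspace of `H^i(Y, ℚ_ℓ)` which is stable under the Galois group has a
stable complement, for `Y` a product of copies of the `V t`. -/
theorem semisimple (h2 : MumfordTateTwo V) (hpol : ∀ t, Polarizable (V t)) (i : ℕ)
    (M : Submodule ℚ_[ℓ] (Idx (fun s => V (τ s)) i → ℚ_[ℓ]))
    (hM : ∀ σ, ∀ x ∈ M, gal (fun s => V (τ s)) i σ *ᵥ x ∈ M) :
    ∃ M' : Submodule ℚ_[ℓ] (Idx (fun s => V (τ s)) i → ℚ_[ℓ]),
      (∀ σ, ∀ x ∈ M', gal (fun s => V (τ s)) i σ *ᵥ x ∈ M') ∧ IsCompl M M' := by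
  have hrel := logRel_family V (Run7.h411.Cft.cft K ℓ)
  obtain ⟨Δ, hΔ, h⟩ := Run7.h615.MT.log_near (fun t => (V t).B) τ i
    (fun t i => (V t).C.G i) (fun t => (V t).X.two_le) hrel 2
  have hlie : galLie (fun σ => galois (fun s => V (τ s)) i σ) = ratSpan ℚ_[ℓ]
      (mtLie (hodgeD (fun s => V (τ s)) i) (hodgeD' (fun s => V (τ s)) i) : Set _) :=
    Run7.h615.MT.galLie_kun (fun t => (V t).B) τ i (fun t => (V t).W)
      (fun t => (V t).X.two_le) (fun t i => (V t).C.G i) hrel h2
  exact semisimple_of_lie (galois (fun s => V (τ s)) i) Δ (fun σ hσ => (h σ hσ).2.1) hlie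
    (fun N hN => compl_kun (n := fun s => (V (τ s)).B.n) (fun s => (V (τ s)).X.d) i
      (fun s j => (V (τ s)).W.V j) (fun s j hj => hpol (τ s) j hj) N hN) hM

end Run7.h514.MT
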