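import Pool.Agent.Run7.h514.MT.Pol

/-!
# Semisimplicity of the representations of any group which satisfy the relation of the logarithms
-/

set_option autoImplicit false
set_option linter.unusedSectionVars false

namespace Run7.h514.MT

open Run7.h457.MT Run7.h615.MT Matrix

/-- **Semisimplicity**, for any group `Γ` with the relation between the logarithms: every stable
subspace of `H^i` of a product has a stable complement. -/
theorem semi_kun {ℓ : ℕ} [Fact ℓ.Prime] {Γ : Type} [Group Γ] {T : Type} [Fintype T] [DecidableEq T]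
    {d : T → ℕ} (hd : ∀ t, 2 ≤ d t) (B : ∀ t, LLV (d t)) (W : ∀ t, (B t).Hodge)
    (G : ∀ t i, Γ →* Matrix (Fin ((B t).n i)) (Fin ((B t).n i)) ℚ_[ℓ])
    (hG : LogRel B G) (h2 : MTTwo B W (fun t i σ => G t i σ))
    (hpol : ∀ t, ∀ i ≤ d t, ∃ ψ, IsPolarization ((W t).V i) ψ)
    {S : Type} [Fintype S] [DecidableEq S] (τ : S → T) (i : ℕ)
    (M : Submodule ℚ_[ℓ] (KTot (fun s j => (B (τ s)).n j) (fun s => d (τ s)) i → ℚ_[ℓ]))
    (hM : ∀ σ, ∀ x ∈ M, kunRep B G τ i σ *ᵥ x ∈ M) :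
    ∃ M' : Submodule ℚ_[ℓ] (KTot (fun s j => (B (τ s)).n j) (fun s => d (τ s)) i → ℚ_[ℓ]),
      (∀ σ, ∀ x ∈ M', kunRep B G τ i σ *ᵥ x ∈ M') ∧ IsCompl M M' := by
  obtain ⟨Δ, hΔ, h⟩ := log_near B τ i G hd hG 2
  let ρ : Γ →* Matrix (KTot (fun s j => (B (τ s)).n j) (fun s => d (τ s)) i)
      (KTot (fun s j => (B (τ s)).n j) (fun s => d (τ s)) i) ℚ_[ℓ] :=
    { toFun := kunRep B G τ i
      map_one' := kunRep_one B τ i G
      map_mul' := kunRep_mul B τ i G }
  have hlie := galLie_kun B τ i W hd G hG h2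
  exact semisimple_of_lie ρ Δ (fun σ hσ => (h σ hσ).2.1) hlie
    (fun N hN => compl_kun (n := fun s j => (B (τ s)).n j) (fun s => d (τ s)) i
      (fun s j => (W (τ s)).V j) (fun s j hj => hpol (τ s) j hj) N hN) hM

end Run7.h514.MT
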